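import Pool.Graph.R_seed8.H370R2.DirGood

/-!
# An upper bound for the real part of the logarithmic derivative of `Γ_ℝ`
-/

set_option autoImplicit false

namespace Pool.Agent.H63.TP

open Complex Filter Topology Set

theorem gammaR_diffAt {z : ℂ} (hz : 0 < z.re) : DifferentiableAt ℂ Gammaℝ z := by
  have h1 : DifferentiableAt ℂ (fun s => (Gammaℝ s)⁻¹) z := differentiable_Gammaℝ_inv z
  have h2 : (Gammaℝ z)⁻¹ ≠ 0 := inv_ne_zero (Gammaℝ_ne_zero_of_re_pos hz)
  have h3 := h1.inv h2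
  have e : (fun s => (Gammaℝ s)⁻¹)⁻¹ = Gammaℝ := by
    funext s
    simp
  rwa [e] at h3

theorem isOpen_re : IsOpen {z : ℂ | 0 < z.re} := isOpen_lt continuous_const continuous_re

theorem gammaR_diffOn : DifferentiableOn ℂ Gammaℝ {z : ℂ | 0 < z.re} :=
  fun _ hz => (gammaR_diffAt hz).differentiableWithinAt

theorem logDeriv_contOn : ContinuousOn (logDeriv Gammaℝ) {z : ℂ | 0 < z.re} := by
  have h1 : ContinuousOn (deriv Gammaℝ) {z : ℂ | 0 < z.re} :=
    (gammaR_diffOn.deriv isOpen_re).continuousOn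
  have h2 : ContinuousOn Gammaℝ {z : ℂ | 0 < z.re} := gammaR_diffOn.continuousOn
  exact h1.div h2 fun z hz => Gammaℝ_ne_zero_of_re_pos hz

theorem logDeriv_shift {z : ℂ} (hz : 0 < z.re) :
    logDeriv Gammaℝ z = logDeriv Gammaℝ (z + 2) - 1 / z := by
  have hz0 : z ≠ 0 := by
    rintro rfl
    simp at hz
  have hre : 0 < (z + 2).re := by simp; linarith
  have e1 : Gammaℝ =ᶠ[𝓝 z] fun w => Gammaℝ (w + 2) * (2 * Real.pi / w) := by
    filter_upwards [isOpen_re.mem_nhds hz] with w hw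
    have hw0 : w ≠ 0 := by
      rintro rfl
      simp at hw
    rw [Gammaℝ_add_two hw0]
    have : (Real.pi : ℂ) ≠ 0 := by exact_mod_cast Real.pi_pos.ne'
    field_simp
  have hd1 : HasDerivAt (fun w : ℂ => Gammaℝ (w + 2)) (deriv Gammaℝ (z + 2)) z := by
    have ha : DifferentiableAt ℂ Gammaℝ (z + 2) := gammaR_diffAt hre
    have hb : HasDerivAt (fun w : ℂ => w + 2) 1 z := (hasDerivAt_id z).add_const _
    simpa [Function.comp_def] using HasDerivAt.comp z ha.hasDerivAt hb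
  have hd2 : HasDerivAt (fun w : ℂ => 2 * (Real.pi : ℂ) / w) (-(2 * Real.pi) / z ^ 2) z := by
    have := (hasDerivAt_inv hz0).const_mul (2 * (Real.pi : ℂ))
    refine (this.congr_deriv ?_).congr_of_eventuallyEq ?_
    · field_simp
    · exact Eventually.of_forall fun w => by simp [div_eq_mul_inv]
  have e3 : deriv (fun w : ℂ => Gammaℝ (w + 2) * (2 * Real.pi / w)) z = _ := (hd1.mul hd2).deriv
  rw [(logDeriv_congr_nhds e1).eq_of_nhds, logDeriv_apply, e3, logDeriv_apply]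
  have h4 : Gammaℝ (z + 2) ≠ 0 := Gammaℝ_ne_zero_of_re_pos hre
  have h5 : (Real.pi : ℂ) ≠ 0 := by exact_mod_cast Real.pi_pos.ne'
  field_simp
  ring

/-- **The bound for `Γ_ℝ'/Γ_ℝ`.** -/
theorem gam_bound : ∃ C : ℝ, 0 ≤ C ∧ ∀ z : ℂ, 0 < z.re → z.re ≤ 4 →
    (logDeriv Gammaℝ z).re ≤ 1 / 2 * Real.log (2 + |z.im|) + C := by
  obtain ⟨C1, hC1, h1⟩ := H370.DL.logDeriv_Gammaℝ_bound
  have hcomp : IsCompact (Icc (2 : ℝ) 6 ×ℂ Icc (-1 : ℝ) 1) := isCompact_Icc.reProdIm isCompact_Icc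
  have hcont : ContinuousOn (logDeriv Gammaℝ) (Icc (2 : ℝ) 6 ×ℂ Icc (-1 : ℝ) 1) :=
    logDeriv_contOn.mono fun z hz => by
      rw [mem_reProdIm] at hz
      have := hz.1.1
      change 0 < z.re
      linarith
  obtain ⟨C2, h2⟩ := hcomp.exists_bound_of_continuousOn hcont
  refine ⟨C1 + |C2|, by positivity, fun z hz hz4 => ?_⟩
  have hzn : 0 ≤ (1 / z).re := by
    rw [one_div, inv_re]
    exact div_nonneg hz.le (normSq_nonneg _)
  have him : (z + 2).im = z.im := by simp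
  have hre : (z + 2).re = z.re + 2 := by simp
  have e1 : (logDeriv Gammaℝ z).re ≤ (logDeriv Gammaℝ (z + 2)).re := by
    rw [logDeriv_shift hz, sub_re]
    linarith
  refine e1.trans ?_
  rcases le_total 1 |z.im| with h | h
  · have h3 := h1 (z + 2) (by rw [hre]; linarith) (by rw [hre]; linarith) (by rwa [him])
    have h4 := (abs_re_le_norm _).trans h3
    rw [sub_re, him] at h4
    have e2 : ((1 : ℂ) / 2 * (Real.log |z.im| : ℂ)).re = 1 / 2 * Real.log |z.im| := by
      rw [show ((1 : ℂ) / 2 * (Real.log |z.im| : ℂ)) = ((1 / 2 * Real.log |z.im| : ℝ) : ℂ) by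
        push_cast; ring, ofReal_re]
    rw [e2, abs_le] at h4
    have h5 : Real.log |z.im| ≤ Real.log (2 + |z.im|) :=
      Real.log_le_log (by linarith) (by linarith)
    have h6 : 0 ≤ |C2| := abs_nonneg _
    linarith [h4.2]
  · have h3 := h2 (z + 2) (by
      rw [mem_reProdIm, hre, him]
      rw [abs_le] at h
      exact ⟨⟨by linarith, by linarith⟩, ⟨h.1, h.2⟩⟩)
    have h4 := (re_le_norm (logDeriv Gammaℝ (z + 2))).trans h3
    have h5 : 0 ≤ Real.log (2 + |z.im|) := Real.log_nonneg (by have := abs_nonneg z.im; linarith)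
    have h6 := le_abs_self C2
    linarith

end Pool.Agent.H63.TP
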