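import Mathlib

/-!
# Spherical cusp forms on `PGL_2` and on `PGL_n`: what is used of them
-/

set_option autoImplicit false

namespace Pool.Agent.H63.TP

open Complex

/-- `Ξ` is the completed `L`-function (multiplied by `s (s - 1)` if there is a pole): entire, of order at most `3/2`,
with a functional equation, and without zeros in `Re s > 1` (where the Euler product converges). -/
structure Compl (Ξ : ℂ → ℂ) : Prop where
  /-- entire -/
  diff : Differentiable ℂ Ξ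
  /-- of order at most `3/2` (the order is in fact `1`) -/
  growth : ∃ K : ℝ, ∀ s, ‖Ξ s‖ ≤ Real.exp (K * (1 + ‖s‖) ^ (3 / 2 : ℝ))
  /-- the functional equation; all `L`-functions here are self-dual -/
  fe : ∃ ω : ℂ, ω ≠ 0 ∧ ∀ s, Ξ (1 - s) = ω * Ξ s
  /-- no zeros in the half plane of absolute convergence -/
  nz : ∀ s : ℂ, 1 < s.re → Ξ s ≠ 0

/-! ### `PGL_2` -/

/-- the trace of `Sym^i` of the class of `diag (z, z⁻¹)` -/
noncomputable def tr (i : ℕ) (z : ℂ) : ℂ := ∑ a ∈ Finset.range (i + 1), z ^ ((i : ℤ) - 2 * (a : ℤ))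

/-- the terms of `-L'/L(s, Sym^i φ × Sym^j φ) = ∑_p ∑_{k ≥ 1} log p · tr_i(α_p^k) tr_j(α_p^k) p^{-ks}` -/
noncomputable def term (α : Nat.Primes → ℂ) (i j : ℕ) (s : ℂ) (x : Nat.Primes × ℕ) : ℂ :=
  (Real.log ((x.1 : ℕ) : ℝ) : ℂ) * (tr i (α x.1 ^ (x.2 + 1)) * tr j (α x.1 ^ (x.2 + 1))) *
    (((x.1 : ℕ) : ℂ) ^ (-s)) ^ (x.2 + 1)

/-- The analytic properties of the Rankin-Selberg `L`-function `L(s, Sym^i φ × Sym^j φ)`: the completed function is
`Ξ(s) = (s (s - 1))^{[i = j]} ∏_{a ≤ i, b ≤ j} Γ_ℝ(s + √-1 t (i - 2 a + j - 2 b)) L(s, Sym^i φ × Sym^j φ)`; this relation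
is stated for the logarithmic derivatives, in the half plane of absolute convergence. -/
def RankinSelberg (α : Nat.Primes → ℂ) (t : ℝ) (i j : ℕ) : Prop :=
  ∃ Ξ : ℂ → ℂ, Compl Ξ ∧ ∀ s : ℂ, 1 < s.re → logDeriv Ξ s =
    (if i = j then 1 / s + 1 / (s - 1) else 0) +
    (∑ a ∈ Finset.range (i + 1), ∑ b ∈ Finset.range (j + 1),
      logDeriv Gammaℝ (s + ((t * (((i : ℤ) - 2 * (a : ℤ) + ((j : ℤ) - 2 * (b : ℤ)) : ℤ) : ℝ) : ℝ) : ℂ) * I)) -
    ∑' x, term α i j s x

/-- What is used of a spherical cusp form `φ` on `PGL_2` over `ℚ` (an even Hecke-Maass cusp form for `SL_2(ℤ)`), with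
Laplace eigenvalue `1/4 + t²` and Satake parameters `α_p, α_p⁻¹`. All of this is known: `φ_p` is unitary, `t > 9`,
`φ` is not of dihedral, tetrahedral or octahedral type, so the `Sym^i φ`, `i ≤ 4`, are cuspidal (Gelbart-Jacquet,
Kim-Shahidi, Kim), and their Rankin-Selberg `L`-functions have the usual analytic properties. -/
structure Spherical (α : Nat.Primes → ℂ) (t : ℝ) : Prop where
  /-- the spectral parameter (in fact `t > 9`) -/
  one_le : 1 ≤ t
  /-- Satake parameters are not zero -/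
  ne_zero : ∀ p, α p ≠ 0
  /-- `φ_p` is unitary: tempered, or in the complementary series -/
  unitary : ∀ p, ‖α p‖ = 1 ∨ (α p).im = 0
  /-- absolute convergence of `L(s, Sym^i φ × Sym^i φ)` for `Re s > 1` -/
  summable : ∀ i ≤ 4, ∀ σ : ℝ, 1 < σ → Summable fun x : Nat.Primes × ℕ =>
    Real.log ((x.1 : ℕ) : ℝ) * ‖tr i (α x.1 ^ (x.2 + 1))‖ ^ 2 * (((x.1 : ℕ) : ℝ) ^ (-σ)) ^ (x.2 + 1)
  /-- the analytic properties of `L(s, Sym^i φ × Sym^j φ)` -/
  rs : ∀ i ≤ 4, ∀ j ≤ 4, RankinSelberg α t i j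

/-- `φ` satisfies the Ramanujan conjecture at `p` -/
def Tempered (α : Nat.Primes → ℂ) (p : Nat.Primes) : Prop := ‖α p‖ = 1

end Pool.Agent.H63.TP
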